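import Pool.Agent.Helper68.LM.St

set_option autoImplicit false

open MeasureTheory Set Filter Topology
open scoped ENNReal

namespace Pool.Agent.Helper17.LM

open Pool.Agent.Helper68.LM

lemma measurable_HL (ρ : ℝ) (g : Pl → ℝ) (hg : Measurable g) : Measurable (HL ρ g) := by
  unfold HL
  apply Measurable.iSup
  intro k
  have h : Measurable (fun q : Pl × Pl => ‖g (q.1 - (2 : ℝ) ^ k • q.2)‖ₑ) := by
    apply Measurable.enorm
    apply hg.comp
    fun_prop
  exact h.lintegral_prod_right'

theorem hHLS (hHLW : StHLW) (hMZ1 : StMZ1) : StHLS := by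
  classical
  refine ⟨fun ρ g hg => measurable_HL ρ g hg.1, ?_⟩
  intro ρ hρ p hp
  obtain ⟨C1, hC1, hW⟩ := hHLW ρ hρ
  obtain ⟨C2, hC2, hM⟩ := hMZ1 p hp
  set V : ℝ := (volume (Metric.closedBall (0 : Pl) ρ)).toReal + 1 with hV
  have hVpos : 0 < V := by
    have := ENNReal.toReal_nonneg (a := volume (Metric.closedBall (0 : Pl) ρ))
    linarith
  have hfin : volume (Metric.closedBall (0 : Pl) ρ) ≠ ∞ := measure_closedBall_lt_top.ne
  have hVle : volume (Metric.closedBall (0 : Pl) ρ) ≤ ENNReal.ofReal V := by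
    rw [← ENNReal.ofReal_toReal hfin]
    exact ENNReal.ofReal_le_ofReal (by linarith)
  set s : ℝ := 1 / (2 * V) with hs
  have hspos : 0 < s := by positivity
  refine ⟨C2 * (2 * C1 * s ^ (1 - p)), by positivity, ?_⟩
  intro g hg hg0
  have hgm : Measurable g := hg.1
  obtain ⟨K, hK1, hK2⟩ := hg.2
  apply hM g (HL ρ g) s (2 * C1) hgm hg0 (measurable_HL ρ g hgm) hspos (by positivity)
  intro lam hlam
  set S : Set Pl := {x | s * lam < g x} with hS
  have hSm : MeasurableSet S := measurableSet_lt measurable_const hgm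
  set g2 : Pl → ℝ := S.indicator g with hg2
  have hg2BB : BB g2 := by
    refine ⟨hgm.indicator hSm, K, ?_, ?_⟩
    · intro x
      by_cases hx : x ∈ S
      · rw [hg2, indicator_of_mem hx]; exact hK1 x
      · rw [hg2, indicator_of_notMem hx, abs_zero]
        exact (abs_nonneg _).trans (hK1 x)
    · intro x hx
      by_cases hx' : x ∈ S
      · rw [hg2, indicator_of_mem hx']; exact hK2 x hx
      · rw [hg2, indicator_of_notMem hx']
  -- pointwise estimate
  have hpt : ∀ z : Pl, ‖g z‖ₑ ≤ ENNReal.ofReal (s * lam) + ‖g2 z‖ₑ := by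
    intro z
    by_cases hz : z ∈ S
    · rw [hg2, indicator_of_mem hz]
      exact le_add_self
    · have hz' : g z ≤ s * lam := not_lt.mp hz
      rw [Real.enorm_eq_ofReal (hg0 z)]
      exact (ENNReal.ofReal_le_ofReal hz').trans le_self_add
  have hHL : ∀ x : Pl, HL ρ g x ≤ ENNReal.ofReal (lam / 2) + HL ρ g2 x := by
    intro x
    apply iSup_le
    intro k
    calc ∫⁻ w in Metric.closedBall (0 : Pl) ρ, ‖g (x - (2 : ℝ) ^ k • w)‖ₑ
        ≤ ∫⁻ w in Metric.closedBall (0 : Pl) ρ,
            (ENNReal.ofReal (s * lam) + ‖g2 (x - (2 : ℝ) ^ k • w)‖ₑ) :=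
          lintegral_mono (fun w => hpt _)
      _ = (∫⁻ _w in Metric.closedBall (0 : Pl) ρ, ENNReal.ofReal (s * lam)) +
            ∫⁻ w in Metric.closedBall (0 : Pl) ρ, ‖g2 (x - (2 : ℝ) ^ k • w)‖ₑ :=
          lintegral_add_left measurable_const _
      _ ≤ ENNReal.ofReal (lam / 2) + HL ρ g2 x := by
          refine add_le_add ?_ (le_iSup (fun k : ℤ => ∫⁻ w in Metric.closedBall (0 : Pl) ρ,
            ‖g2 (x - (2 : ℝ) ^ k • w)‖ₑ) k)
          rw [setLIntegral_const]
          calc ENNReal.ofReal (s * lam) * volume (Metric.closedBall (0 : Pl) ρ)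
              ≤ ENNReal.ofReal (s * lam) * ENNReal.ofReal V := mul_le_mul' le_rfl hVle
            _ = ENNReal.ofReal (lam / 2) := by
                rw [← ENNReal.ofReal_mul (by positivity)]
                congr 1
                rw [hs]
                field_simp
  have hsub : {x | ENNReal.ofReal lam < HL ρ g x} ⊆ {x | ENNReal.ofReal (lam / 2) < HL ρ g2 x} := by
    intro x hx
    simp only [mem_setOf_eq] at hx ⊢
    by_contra hcon
    rw [not_lt] at hcon
    have h1 : HL ρ g x ≤ ENNReal.ofReal (lam / 2) + ENNReal.ofReal (lam / 2) :=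
      (hHL x).trans (add_le_add le_rfl hcon)
    rw [← ENNReal.ofReal_add (by positivity) (by positivity), add_halves] at h1
    exact absurd hx (not_lt.mpr h1)
  calc volume {x | ENNReal.ofReal lam < HL ρ g x}
      ≤ volume {x | ENNReal.ofReal (lam / 2) < HL ρ g2 x} := measure_mono hsub
    _ ≤ ENNReal.ofReal (C1 / (lam / 2)) * ∫⁻ x, ‖g2 x‖ₑ := hW g2 hg2BB (lam / 2) (by positivity)
    _ = ENNReal.ofReal (2 * C1 / lam) * ∫⁻ x in S, ENNReal.ofReal (g x) := by
        congr 1
        · congr 1
          field_simp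
        · rw [← lintegral_indicator hSm]
          apply lintegral_congr
          intro x
          by_cases hx : x ∈ S
          · rw [hg2, indicator_of_mem hx, indicator_of_mem hx, Real.enorm_eq_ofReal (hg0 x)]
          · rw [hg2, indicator_of_notMem hx, indicator_of_notMem hx]
            simp

end Pool.Agent.Helper17.LM
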