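import Pool.Agent.Helper68.LM.St

set_option autoImplicit false

open MeasureTheory Set Filter Topology
open scoped ENNReal

namespace Pool.Agent.Helper17.LM

open Pool.Agent.Helper68.LM

lemma ofReal_le_enorm' (a : ℝ) : ENNReal.ofReal a ≤ ‖a‖ₑ := by
  rw [Real.enorm_eq_ofReal_abs]
  exact ENNReal.ofReal_le_ofReal (le_abs_self a)

theorem hHLD (hPH : StPH) (_hBBC : StBBC) : StHLD := by
  classical
  obtain ⟨_, hnn, hz, _, _, C0, hC0, hle, _⟩ := hPH
  intro R hR
  refine ⟨C0, hC0, ?_⟩
  intro ν L hBd hL g _ _ k x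
  obtain ⟨hsupp, hmass⟩ := hBd
  set t : ℝ := (2 : ℝ) ^ k with ht
  have hae : ∀ᵐ y ∂ν, ‖y‖ ≤ R := by
    rw [ae_iff]
    refine measure_mono_null ?_ hsupp
    intro y hy
    simp only [mem_setOf_eq, not_le] at hy
    simp only [mem_compl_iff, Metric.mem_closedBall, dist_zero_right, not_le]
    exact hy
  have hpt : ∀ y : Pl, ‖y‖ ≤ R →
      ‖Sm t g (x - t • y)‖ₑ ≤ ENNReal.ofReal C0 * HL (R + 1) g x := by
    intro y hy
    calc ‖Sm t g (x - t • y)‖ₑ ≤ ∫⁻ w, ‖ph w * g (x - t • y - t • w)‖ₑ := by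
          exact enorm_integral_le_lintegral_enorm _
      _ ≤ ∫⁻ w, (fun u : Pl => (Metric.closedBall (0 : Pl) (R + 1)).indicator
            (fun u => ENNReal.ofReal C0 * ‖g (x - t • u)‖ₑ) u) (y + w) := by
          apply lintegral_mono
          intro w
          simp only
          by_cases hw : ‖w‖ < 1
          · have hmem : y + w ∈ Metric.closedBall (0 : Pl) (R + 1) := by
              rw [Metric.mem_closedBall, dist_zero_right]
              exact (norm_add_le y w).trans (by linarith)
            rw [indicator_of_mem hmem]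
            rw [enorm_mul]
            have h1 : ‖ph w‖ₑ ≤ ENNReal.ofReal C0 := by
              rw [Real.enorm_eq_ofReal (hnn w)]
              exact ENNReal.ofReal_le_ofReal (hle w)
            have h2 : x - t • y - t • w = x - t • (y + w) := by
              rw [smul_add, sub_sub]
            rw [h2]
            exact mul_le_mul' h1 le_rfl
          · rw [hz w (not_lt.mp hw)]
            simp
      _ = ∫⁻ w, (Metric.closedBall (0 : Pl) (R + 1)).indicator
            (fun u => ENNReal.ofReal C0 * ‖g (x - t • u)‖ₑ) w := by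
          exact lintegral_add_left_eq_self (μ := (volume : Measure Pl)) _ y
      _ = ∫⁻ w in Metric.closedBall (0 : Pl) (R + 1), ENNReal.ofReal C0 * ‖g (x - t • w)‖ₑ := by
          rw [lintegral_indicator Metric.isClosed_closedBall.measurableSet]
      _ = ENNReal.ofReal C0 * ∫⁻ w in Metric.closedBall (0 : Pl) (R + 1), ‖g (x - t • w)‖ₑ := by
          rw [lintegral_const_mul' _ _ ENNReal.ofReal_ne_top]
      _ ≤ ENNReal.ofReal C0 * HL (R + 1) g x := by
          refine mul_le_mul' le_rfl ?_
          exact le_iSup (fun k : ℤ => ∫⁻ w in Metric.closedBall (0 : Pl) (R + 1),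
            ‖g (x - (2 : ℝ) ^ k • w)‖ₑ) k
  calc ENNReal.ofReal (Av ν t (Sm t g) x) ≤ ‖Av ν t (Sm t g) x‖ₑ := ofReal_le_enorm' _
    _ ≤ ∫⁻ y, ‖Sm t g (x - t • y)‖ₑ ∂ν := enorm_integral_le_lintegral_enorm _
    _ ≤ ∫⁻ _y, ENNReal.ofReal C0 * HL (R + 1) g x ∂ν := by
        apply lintegral_mono_ae
        filter_upwards [hae] with y hy
        exact hpt y hy
    _ = ENNReal.ofReal C0 * HL (R + 1) g x * ν univ := lintegral_const _
    _ ≤ ENNReal.ofReal C0 * HL (R + 1) g x * ENNReal.ofReal L := mul_le_mul' le_rfl hmass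
    _ = ENNReal.ofReal (C0 * L) * HL (R + 1) g x := by
        rw [ENNReal.ofReal_mul hC0.le]
        ring

end Pool.Agent.Helper17.LM
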