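import Pool.Agent.Helper17.LM.M_L2E

set_option autoImplicit false

open MeasureTheory Set Filter Topology
open scoped ENNReal RealInnerProductSpace FourierTransform

namespace Pool.Agent.Helper17.LM

open Pool.Agent.Helper68.LM

theorem hL2D (hBBC : StBBC) (hPL : StPL) (hFA : StFA) (hFS : StFS) (hNUM : StNUM) : StL2D := by
  obtain ⟨C, hC, hnum⟩ := hNUM
  obtain ⟨hBsub, hBSm, hBAv, -⟩ := hBBC
  obtain ⟨hFS1, hFS2, hFS3, hFS4⟩ := hFS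
  refine ⟨C, hC, ?_⟩
  intro ν R L N hBd hL hDec a b hab g hg
  have hBBh : ∀ k : ℤ, BB (fun x => Sm ((2 : ℝ) ^ (k - (a : ℤ))) g x -
      Sm ((2 : ℝ) ^ (k - (b : ℤ))) g x) := fun k =>
    hBsub _ _ (hBSm g _ hg) (hBSm g _ hg)
  have hBBE : ∀ k : ℤ, BB (Dk ν a b k g) := fun k =>
    hBAv ν R L _ _ hBd (by positivity) (hBBh k)
  have hpt : ∀ (k : ℤ) (ξ : Pl), ξ ≠ 0 → ‖ft (Dk ν a b k g) ξ‖ ^ 2 ≤
      L ^ 2 * (min 1 (2 ^ N / ((2 : ℝ) ^ k * ‖ξ‖)) *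
      min 4 ((4 * Real.pi * ((2 : ℝ) ^ (k - (b : ℤ)) * ‖ξ‖)) ^ 2)) * ‖ft g ξ‖ ^ 2 := by
    intro k ξ hξ
    have h2k : (0 : ℝ) < (2 : ℝ) ^ k := by positivity
    have h2a : (0 : ℝ) < (2 : ℝ) ^ (k - (a : ℤ)) := by positivity
    have h2b : (0 : ℝ) < (2 : ℝ) ^ (k - (b : ℤ)) := by positivity
    have hη : (2 : ℝ) ^ k • ξ ≠ 0 := smul_ne_zero h2k.ne' hξ
    have hn : ‖(2 : ℝ) ^ k • ξ‖ = (2 : ℝ) ^ k * ‖ξ‖ := by
      rw [norm_smul, Real.norm_of_nonneg h2k.le]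
    have hna : ‖(2 : ℝ) ^ (k - (a : ℤ)) • ξ‖ = (2 : ℝ) ^ (k - (a : ℤ)) * ‖ξ‖ := by
      rw [norm_smul, Real.norm_of_nonneg h2a.le]
    have hnb : ‖(2 : ℝ) ^ (k - (b : ℤ)) • ξ‖ = (2 : ℝ) ^ (k - (b : ℤ)) * ‖ξ‖ := by
      rw [norm_smul, Real.norm_of_nonneg h2b.le]
    have e1 : ft (Dk ν a b k g) ξ =
        fm ν ((2 : ℝ) ^ k • ξ) * ((ft ph ((2 : ℝ) ^ (k - (a : ℤ)) • ξ) -
          ft ph ((2 : ℝ) ^ (k - (b : ℤ)) • ξ)) * ft g ξ) := by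
      rw [show Dk ν a b k g = Av ν ((2 : ℝ) ^ k) (fun x => Sm ((2 : ℝ) ^ (k - (a : ℤ))) g x -
          Sm ((2 : ℝ) ^ (k - (b : ℤ))) g x) from rfl,
        hFA ν R L _ _ hBd h2k (hBBh k) ξ, hFS4 _ _ (hBSm g _ hg) (hBSm g _ hg) ξ,
        hFS1 _ g h2a hg ξ, hFS1 _ g h2b hg ξ]
      ring
    have e2 := fm_sq_le ν R L N hBd hL hDec _ hη
    rw [hn] at e2
    set A : ℂ := ft ph ((2 : ℝ) ^ (k - (a : ℤ)) • ξ) with hA
    set B : ℂ := ft ph ((2 : ℝ) ^ (k - (b : ℤ)) • ξ) with hB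
    have e3 : ‖A - B‖ ^ 2 ≤
        min 4 ((4 * Real.pi * ((2 : ℝ) ^ (k - (b : ℤ)) * ‖ξ‖)) ^ 2) := by
      apply le_min
      · have : ‖A - B‖ ≤ 2 := by
          calc ‖A - B‖ ≤ ‖A‖ + ‖B‖ := norm_sub_le _ _
            _ ≤ 1 + 1 := add_le_add (hFS2 _) (hFS2 _)
            _ = 2 := by norm_num
        calc ‖A - B‖ ^ 2 ≤ 2 ^ 2 := pow_le_pow_left₀ (norm_nonneg _) this 2
          _ = 4 := by norm_num
      · have h1 := hFS3 ((2 : ℝ) ^ (k - (a : ℤ)) • ξ)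
        have h2 := hFS3 ((2 : ℝ) ^ (k - (b : ℤ)) • ξ)
        rw [hna, ← hA] at h1
        rw [hnb, ← hB] at h2
        have hp := Real.pi_pos
        have hle : (2 : ℝ) ^ (k - (a : ℤ)) ≤ (2 : ℝ) ^ (k - (b : ℤ)) := by
          apply zpow_le_zpow_right₀ (by norm_num)
          have : (b : ℤ) ≤ (a : ℤ) := by exact_mod_cast hab
          linarith
        have h3 : ‖A - B‖ ≤ ‖1 - B‖ + ‖1 - A‖ := by
          calc ‖A - B‖ = ‖(1 - B) - (1 - A)‖ := by congr 1; ring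
            _ ≤ ‖1 - B‖ + ‖1 - A‖ := norm_sub_le _ _
        refine pow_le_pow_left₀ (norm_nonneg _) ?_ 2
        have h4 : 2 * Real.pi * ((2 : ℝ) ^ (k - (a : ℤ)) * ‖ξ‖) ≤
            2 * Real.pi * ((2 : ℝ) ^ (k - (b : ℤ)) * ‖ξ‖) := by
          apply mul_le_mul_of_nonneg_left _ (by positivity)
          exact mul_le_mul_of_nonneg_right hle (norm_nonneg _)
        linarith
    rw [e1, norm_mul, norm_mul, mul_pow, mul_pow]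
    have hm1 : 0 ≤ min 1 (2 ^ N / ((2 : ℝ) ^ k * ‖ξ‖)) := le_min zero_le_one (by positivity)
    calc ‖fm ν ((2 : ℝ) ^ k • ξ)‖ ^ 2 * (‖A - B‖ ^ 2 * ‖ft g ξ‖ ^ 2)
        ≤ (L ^ 2 * min 1 (2 ^ N / ((2 : ℝ) ^ k * ‖ξ‖))) *
          (min 4 ((4 * Real.pi * ((2 : ℝ) ^ (k - (b : ℤ)) * ‖ξ‖)) ^ 2) * ‖ft g ξ‖ ^ 2) := by
          apply mul_le_mul e2 _ (by positivity) (by positivity)
          exact mul_le_mul_of_nonneg_right e3 (by positivity)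
      _ = _ := by ring
  constructor
  · intro hb0
    have key := l2_core hPL (fun k => Dk ν a b k g) g hBBE hg
      (fun k ξ => min 1 (2 ^ N / ((2 : ℝ) ^ k * ‖ξ‖)) *
        min 4 ((4 * Real.pi * ((2 : ℝ) ^ (k - (b : ℤ)) * ‖ξ‖)) ^ 2)) L (C * (N + 1)) hL hpt
        (fun ξ hξ => (hnum N b ‖ξ‖ (norm_pos_iff.mpr hξ)).1 hb0)
    refine key.trans (le_of_eq ?_)
    congr 2
    ring
  · intro hNb
    have key := l2_core hPL (fun k => Dk ν a b k g) g hBBE hg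
      (fun k ξ => min 1 (2 ^ N / ((2 : ℝ) ^ k * ‖ξ‖)) *
        min 4 ((4 * Real.pi * ((2 : ℝ) ^ (k - (b : ℤ)) * ‖ξ‖)) ^ 2)) L
        (C * (2 : ℝ) ^ ((N : ℤ) - b)) hL hpt
        (fun ξ hξ => (hnum N b ‖ξ‖ (norm_pos_iff.mpr hξ)).2 hNb)
    refine key.trans (le_of_eq ?_)
    congr 2
    ring

end Pool.Agent.Helper17.LM
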