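import Pool.Agent.Helper68.LM.St

set_option autoImplicit false

open MeasureTheory Set Filter Topology
open scoped ENNReal RealInnerProductSpace FourierTransform

namespace Pool.Agent.Helper17.LM

open Pool.Agent.Helper68.LM

lemma enorm_sq_eq (z : ℂ) : ‖z‖ₑ ^ 2 = ENNReal.ofReal (‖z‖ ^ 2) := by
  rw [← ofReal_norm z, ENNReal.ofReal_pow (norm_nonneg z)]

/-- common part of L2E and L2D -/
lemma l2_core (hPL : StPL) (F : ℤ → Pl → ℝ) (g : Pl → ℝ) (hF : ∀ k, BB (F k)) (hg : BB g)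
    (w : ℤ → Pl → ℝ) (L B : ℝ) (hL : 0 < L)
    (hpt : ∀ k ξ, ξ ≠ 0 → ‖ft (F k) ξ‖ ^ 2 ≤ L ^ 2 * w k ξ * ‖ft g ξ‖ ^ 2)
    (hsum : ∀ ξ, ξ ≠ 0 → ∑' k : ℤ, ENNReal.ofReal (w k ξ) ≤ ENNReal.ofReal B) :
    ∑' k : ℤ, ∫⁻ x, ‖F k x‖ₑ ^ 2 ≤ ENNReal.ofReal (L ^ 2 * B) * ∫⁻ x, ‖g x‖ₑ ^ 2 := by
  have hL2 : (0 : ℝ) ≤ L ^ 2 := by positivity
  have h0 : ∀ᵐ ξ : Pl, ξ ≠ 0 := by
    rw [ae_iff]
    simp
  calc ∑' k : ℤ, ∫⁻ x, ‖F k x‖ₑ ^ 2 = ∑' k : ℤ, ∫⁻ ξ, ‖ft (F k) ξ‖ₑ ^ 2 := by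
        refine tsum_congr fun k => ?_
        exact ((hPL (F k) (hF k)).2).symm
    _ = ∫⁻ ξ, ∑' k : ℤ, ‖ft (F k) ξ‖ₑ ^ 2 := by
        rw [lintegral_tsum]
        intro k
        exact ((hPL (F k) (hF k)).1.enorm.pow_const 2).aemeasurable
    _ ≤ ∫⁻ ξ, ENNReal.ofReal (L ^ 2 * B) * ‖ft g ξ‖ₑ ^ 2 := by
        apply lintegral_mono_ae
        filter_upwards [h0] with ξ hξ
        calc ∑' k : ℤ, ‖ft (F k) ξ‖ₑ ^ 2
            ≤ ∑' k : ℤ, (ENNReal.ofReal (L ^ 2) * ‖ft g ξ‖ₑ ^ 2) * ENNReal.ofReal (w k ξ) := by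
              refine ENNReal.tsum_le_tsum fun k => ?_
              rw [enorm_sq_eq, enorm_sq_eq, ← ENNReal.ofReal_mul hL2,
                ← ENNReal.ofReal_mul (by positivity)]
              refine ENNReal.ofReal_le_ofReal ((hpt k ξ hξ).trans (le_of_eq ?_))
              ring
          _ = (ENNReal.ofReal (L ^ 2) * ‖ft g ξ‖ₑ ^ 2) * ∑' k : ℤ, ENNReal.ofReal (w k ξ) := by
              rw [ENNReal.tsum_mul_left]
          _ ≤ (ENNReal.ofReal (L ^ 2) * ‖ft g ξ‖ₑ ^ 2) * ENNReal.ofReal B :=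
              mul_le_mul' le_rfl (hsum ξ hξ)
          _ = ENNReal.ofReal (L ^ 2 * B) * ‖ft g ξ‖ₑ ^ 2 := by
              rw [ENNReal.ofReal_mul hL2]
              ring
    _ = ENNReal.ofReal (L ^ 2 * B) * ∫⁻ ξ, ‖ft g ξ‖ₑ ^ 2 := by
        rw [lintegral_const_mul' _ _ ENNReal.ofReal_ne_top]
    _ = ENNReal.ofReal (L ^ 2 * B) * ∫⁻ x, ‖g x‖ₑ ^ 2 := by
        rw [(hPL g hg).2]

lemma fm_sq_le (ν : Measure Pl) (R L : ℝ) (N : ℕ) (hBd : Bd R L ν) (hL : 0 < L) (hDec : Dec L N ν)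
    (η : Pl) (hη : η ≠ 0) : ‖fm ν η‖ ^ 2 ≤ L ^ 2 * min 1 (2 ^ N / ‖η‖) := by
  have hfin : IsFiniteMeasure ν := ⟨lt_of_le_of_lt hBd.2 ENNReal.ofReal_lt_top⟩
  have hreal : ν.real univ ≤ L := by
    rw [Measure.real]
    exact ENNReal.toReal_le_of_le_ofReal hL.le hBd.2
  have h1 : ‖fm ν η‖ ≤ L := by
    have h := norm_integral_le_of_norm_le_const (μ := ν) (C := 1)
      (f := fun y : Pl => Complex.exp (((-2 * Real.pi * ⟪y, η⟫ : ℝ) : ℂ) * Complex.I))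
      (Eventually.of_forall fun y => by rw [Complex.norm_exp_ofReal_mul_I])
    calc ‖fm ν η‖ ≤ 1 * ν.real univ := h
      _ ≤ L := by rw [one_mul]; exact hreal
  have hpos : 0 < ‖η‖ := norm_pos_iff.mpr hη
  have h2 : ‖fm ν η‖ ^ 2 ≤ L ^ 2 * (2 ^ N / ‖η‖) := by
    have := hDec η hη
    calc ‖fm ν η‖ ^ 2 ≤ (L * Real.sqrt (2 ^ N / ‖η‖)) ^ 2 :=
          pow_le_pow_left₀ (norm_nonneg _) this 2
      _ = L ^ 2 * (2 ^ N / ‖η‖) := by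
          rw [mul_pow, Real.sq_sqrt (by positivity)]
  have h3 : ‖fm ν η‖ ^ 2 ≤ L ^ 2 * 1 := by
    rw [mul_one]
    exact pow_le_pow_left₀ (norm_nonneg _) h1 2
  rcases min_choice (1 : ℝ) (2 ^ N / ‖η‖) with h | h
  · rw [h]; exact h3
  · rw [h]; exact h2

theorem hL2E (hBBC : StBBC) (hPL : StPL) (hFA : StFA) (hFS : StFS) (hNUM : StNUM) : StL2E := by
  obtain ⟨C, hC, hnum⟩ := hNUM
  obtain ⟨hBsub, hBSm, hBAv, -⟩ := hBBC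
  obtain ⟨hFS1, hFS2, hFS3, hFS4⟩ := hFS
  refine ⟨C, hC, ?_⟩
  intro ν R L N hBd hL hDec g hg
  have hBBh : ∀ k : ℤ, BB (fun x => g x - Sm ((2 : ℝ) ^ k) g x) := fun k =>
    hBsub g _ hg (hBSm g _ hg)
  have hBBE : ∀ k : ℤ, BB (Ek ν k g) := fun k =>
    hBAv ν R L _ _ hBd (by positivity) (hBBh k)
  have key := l2_core hPL (fun k => Ek ν k g) g hBBE hg
    (fun k ξ => min 1 (2 ^ N / ((2 : ℝ) ^ k * ‖ξ‖)) *
      min 4 ((4 * Real.pi * ((2 : ℝ) ^ (k - ((0 : ℕ) : ℤ)) * ‖ξ‖)) ^ 2)) L (C * (N + 1)) hL ?_ ?_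
  · refine key.trans (le_of_eq ?_)
    congr 2
    ring
  · intro k ξ hξ
    have h2k : (0 : ℝ) < (2 : ℝ) ^ k := by positivity
    have hη : (2 : ℝ) ^ k • ξ ≠ 0 := smul_ne_zero h2k.ne' hξ
    have hn : ‖(2 : ℝ) ^ k • ξ‖ = (2 : ℝ) ^ k * ‖ξ‖ := by
      rw [norm_smul, Real.norm_of_nonneg h2k.le]
    have e1 : ft (Ek ν k g) ξ =
        fm ν ((2 : ℝ) ^ k • ξ) * ((1 - ft ph ((2 : ℝ) ^ k • ξ)) * ft g ξ) := by
      rw [show Ek ν k g = Av ν ((2 : ℝ) ^ k) (fun x => g x - Sm ((2 : ℝ) ^ k) g x) from rfl,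
        hFA ν R L _ _ hBd h2k (hBBh k) ξ, hFS4 g _ hg (hBSm g _ hg) ξ, hFS1 _ g h2k hg ξ]
      ring
    have e2 := fm_sq_le ν R L N hBd hL hDec _ hη
    rw [hn] at e2
    have e3 : ‖1 - ft ph ((2 : ℝ) ^ k • ξ)‖ ^ 2 ≤
        min 4 ((4 * Real.pi * ((2 : ℝ) ^ (k - ((0 : ℕ) : ℤ)) * ‖ξ‖)) ^ 2) := by
      apply le_min
      · have : ‖1 - ft ph ((2 : ℝ) ^ k • ξ)‖ ≤ 2 := by
          calc ‖1 - ft ph ((2 : ℝ) ^ k • ξ)‖ ≤ ‖(1 : ℂ)‖ + ‖ft ph ((2 : ℝ) ^ k • ξ)‖ := norm_sub_le _ _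
            _ ≤ 1 + 1 := by
                rw [norm_one]
                exact add_le_add le_rfl (hFS2 _)
            _ = 2 := by norm_num
        calc ‖1 - ft ph ((2 : ℝ) ^ k • ξ)‖ ^ 2 ≤ 2 ^ 2 := pow_le_pow_left₀ (norm_nonneg _) this 2
          _ = 4 := by norm_num
      · have h := hFS3 ((2 : ℝ) ^ k • ξ)
        rw [hn] at h
        refine pow_le_pow_left₀ (norm_nonneg _) (h.trans ?_) 2
        have hp := Real.pi_pos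
        simp only [Nat.cast_zero, sub_zero]
        have : 0 ≤ (2 : ℝ) ^ k * ‖ξ‖ := by positivity
        nlinarith [mul_nonneg hp.le this]
    rw [e1, norm_mul, norm_mul, mul_pow, mul_pow]
    have hm1 : 0 ≤ min 1 (2 ^ N / ((2 : ℝ) ^ k * ‖ξ‖)) := le_min zero_le_one (by positivity)
    calc ‖fm ν ((2 : ℝ) ^ k • ξ)‖ ^ 2 * (‖1 - ft ph ((2 : ℝ) ^ k • ξ)‖ ^ 2 * ‖ft g ξ‖ ^ 2)
        ≤ (L ^ 2 * min 1 (2 ^ N / ((2 : ℝ) ^ k * ‖ξ‖))) *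
          (min 4 ((4 * Real.pi * ((2 : ℝ) ^ (k - ((0 : ℕ) : ℤ)) * ‖ξ‖)) ^ 2) * ‖ft g ξ‖ ^ 2) := by
          apply mul_le_mul e2 _ (by positivity) (by positivity)
          exact mul_le_mul_of_nonneg_right e3 (by positivity)
      _ = _ := by ring
  · intro ξ hξ
    exact (hnum N 0 ‖ξ‖ (norm_pos_iff.mpr hξ)).1 rfl

end Pool.Agent.Helper17.LM
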